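import Mathlib
import Pool.Agent.Helper29_CF.Defs
import Pool.Agent.Helper29_CF.Stmt

/-!
Module GLUE of the squad `cf`: gluing two robust sets at one point.
-/

namespace Pool.Agent.Helper29_CF.H14

open Finset

section

variable {V B : Type} [DecidableEq V] [DecidableEq B]

/-- colouring of a union of two families -/
def mix (Λ : Finset B) (c1 c2 : B → Bool) : B → Bool := fun b => if b ∈ Λ then c1 b else c2 b

theorem cdeg_mix_left (s : B → Finset V) (Λ L L1 L2 : Finset B) (c1 c2 : B → Bool) (y : V)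
    (h1 : L1 ⊆ Λ) (hy : ∀ b ∈ L2, y ∉ s b) (κ : Bool) :
    cdeg s (L1 ∪ L2) (mix Λ c1 c2) κ y = cdeg s L1 c1 κ y := by
  unfold cdeg
  congr 1
  ext b
  simp only [mem_filter, mem_union, mix]
  constructor
  · rintro ⟨h, hb, hc⟩
    rcases h with h | h
    · rw [if_pos (h1 h)] at hc
      exact ⟨h, hb, hc⟩
    · exact absurd hb (hy b h)
  · rintro ⟨h, hb, hc⟩
    refine ⟨Or.inl h, hb, ?_⟩
    rw [if_pos (h1 h)]
    exact hc

theorem cdeg_mix_right (s : B → Finset V) (Λ L L1 L2 : Finset B) (c1 c2 : B → Bool) (y : V)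
    (hd : Disjoint Λ L) (h2 : L2 ⊆ L) (hy : ∀ b ∈ L1, y ∉ s b) (κ : Bool) :
    cdeg s (L1 ∪ L2) (mix Λ c1 c2) κ y = cdeg s L2 c2 κ y := by
  unfold cdeg
  congr 1
  ext b
  simp only [mem_filter, mem_union, mix]
  constructor
  · rintro ⟨h, hb, hc⟩
    rcases h with h | h
    · exact absurd hb (hy b h)
    · rw [if_neg (fun hb' => (Finset.disjoint_left.mp hd hb') (h2 h))] at hc
      exact ⟨h, hb, hc⟩
  · rintro ⟨h, hb, hc⟩
    refine ⟨Or.inr h, hb, ?_⟩
    rw [if_neg (fun hb' => (Finset.disjoint_left.mp hd hb') (h2 h))]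
    exact hc

/-- the common part of all gluings -/
theorem glue_core (s : B → Finset V) (Λ L : Finset B) (W : Finset V) (x : V)
    (hd : Disjoint Λ L) (hΛ : ∀ b ∈ Λ, s b ⊆ W) (hL : ∀ b ∈ L, s b ⊆ pts s L)
    (hx : W ∩ pts s L = {x}) (L1 L2 : Finset B) (c1 c2 : B → Bool) (h1 : L1 ⊆ Λ) (h2 : L2 ⊆ L) :
    L1 ∪ L2 ⊆ Λ ∪ L ∧
    (∀ y ∈ W, (y ≠ x ∨ ∀ b ∈ L2, x ∉ s b) → ∀ κ,
      cdeg s (L1 ∪ L2) (mix Λ c1 c2) κ y = cdeg s L1 c1 κ y) ∧
    (∀ y ∈ pts s L, (y ≠ x ∨ ∀ b ∈ L1, x ∉ s b) → ∀ κ,
      cdeg s (L1 ∪ L2) (mix Λ c1 c2) κ y = cdeg s L2 c2 κ y) ∧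
    (∀ y ∈ W, (y ≠ x ∨ ∀ b ∈ L2, x ∉ s b) → ∀ b ∈ L2, y ∉ s b) ∧
    (∀ y ∈ pts s L, (y ≠ x ∨ ∀ b ∈ L1, x ∉ s b) → ∀ b ∈ L1, y ∉ s b) := by
  have k1 : ∀ y ∈ W, (y ≠ x ∨ ∀ b ∈ L2, x ∉ s b) → ∀ b ∈ L2, y ∉ s b := by
    intro y hy h b hb hyb
    have : y ∈ W ∩ pts s L := mem_inter.mpr ⟨hy, hL b (h2 hb) hyb⟩
    rw [hx, mem_singleton] at this
    rcases h with h | h
    · exact h this
    · exact h b hb (this ▸ hyb)
  have k2 : ∀ y ∈ pts s L, (y ≠ x ∨ ∀ b ∈ L1, x ∉ s b) → ∀ b ∈ L1, y ∉ s b := by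
    intro y hy h b hb hyb
    have : y ∈ W ∩ pts s L := mem_inter.mpr ⟨hΛ b (h1 hb) hyb, hy⟩
    rw [hx, mem_singleton] at this
    rcases h with h | h
    · exact h this
    · exact h b hb (this ▸ hyb)
  refine ⟨union_subset_union h1 h2, ?_, ?_, k1, k2⟩
  · intro y hy h κ
    exact cdeg_mix_left s Λ L L1 L2 c1 c2 y h1 (k1 y hy h) κ
  · intro y hy h κ
    exact cdeg_mix_right s Λ L L1 L2 c1 c2 y hd h2 (k2 y hy h) κ

theorem sat_congr {s : B → Finset V} {C C' : Finset B} {c c' : B → Bool} {y : V}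
    (h : ∀ κ, cdeg s C' c' κ y = cdeg s C c κ y) (hs : Sat s C c y) : Sat s C' c' y := by
  obtain ⟨κ, hκ⟩ := hs
  exact ⟨κ, by rw [h κ]; exact hκ⟩

theorem satP_congr {s : B → Finset V} {C C' : Finset B} {c c' : B → Bool} {y : V} {κ : Bool}
    (h : ∀ κ, cdeg s C' c' κ y = cdeg s C c κ y) (hs : SatP s C c κ y) : SatP s C' c' κ y := by
  unfold SatP at hs ⊢
  rw [h κ, h (!κ)]
  exact hs

end

theorem glue : GlueStmt := by
  intro V B _ _ _ _ s Λ L W x hd hΛ rW rP hL hx
  have hxW : x ∈ W := by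
    have : x ∈ W ∩ pts s L := by rw [hx]; exact mem_singleton_self x
    exact (mem_inter.mp this).1
  have hxP : x ∈ pts s L := by
    have : x ∈ W ∩ pts s L := by rw [hx]; exact mem_singleton_self x
    exact (mem_inter.mp this).2
  have hWP : ∀ y, y ∈ W → y ∈ pts s L → y = x := by
    intro y h1 h2
    have : y ∈ W ∩ pts s L := mem_inter.mpr ⟨h1, h2⟩
    rw [hx, mem_singleton] at this
    exact this
  refine ⟨?_, ?_, ?_⟩
  · -- near
    intro z hz
    by_cases hzW : z ∈ W
    · obtain ⟨L1, h1, c1, a1, b1⟩ := rW.near z hzW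
      obtain ⟨L2, h2, c2, a2, b2⟩ := rP.near x hxP
      obtain ⟨g1, g2, g3, g4, g5⟩ := glue_core s Λ L W x hd hΛ hL hx L1 L2 c1 c2 h1 h2
      refine ⟨L1 ∪ L2, g1, mix Λ c1 c2, ?_, ?_⟩
      · intro b hb
        rcases mem_union.mp hb with hb | hb
        · exact a1 b hb
        · exact g4 z hzW (Or.inr a2) b hb
      · intro y hy hyz
        by_cases hyW : y ∈ W
        · exact sat_congr (g2 y hyW (Or.inr a2)) (b1 y hyW hyz)
        · have hyP : y ∈ pts s L := (mem_union.mp hy).resolve_left hyW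
          have hyx : y ≠ x := fun h => hyW (h ▸ hxW)
          exact sat_congr (g3 y hyP (Or.inl hyx)) (b2 y hyP hyx)
    · have hzP : z ∈ pts s L := (mem_union.mp hz).resolve_left hzW
      have hzx : z ≠ x := fun h => hzW (h ▸ hxW)
      obtain ⟨L1, h1, c1, a1, b1⟩ := rW.near x hxW
      obtain ⟨L2, h2, c2, a2, b2⟩ := rP.near z hzP
      obtain ⟨g1, g2, g3, g4, g5⟩ := glue_core s Λ L W x hd hΛ hL hx L1 L2 c1 c2 h1 h2
      refine ⟨L1 ∪ L2, g1, mix Λ c1 c2, ?_, ?_⟩
      · intro b hb
        rcases mem_union.mp hb with hb | hb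
        · exact g5 z hzP (Or.inl hzx) b hb
        · exact a2 b hb
      · intro y hy hyz
        by_cases hyP : y ∈ pts s L
        · exact sat_congr (g3 y hyP (Or.inr a1)) (b2 y hyP hyz)
        · have hyW : y ∈ W := (mem_union.mp hy).resolve_right hyP
          have hyx : y ≠ x := fun h => hyP (h ▸ hxP)
          exact sat_congr (g2 y hyW (Or.inl hyx)) (b1 y hyW hyx)
  · -- near2
    intro z hz z' hz' hzz κ
    by_cases hzW : z ∈ W
    · by_cases hzW' : z' ∈ W
      · obtain ⟨L1, h1, c1, a1, p1, b1⟩ := rW.near2 z hzW z' hzW' hzz κ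
        obtain ⟨L2, h2, c2, a2, b2⟩ := rP.near x hxP
        obtain ⟨g1, g2, g3, g4, g5⟩ := glue_core s Λ L W x hd hΛ hL hx L1 L2 c1 c2 h1 h2
        refine ⟨L1 ∪ L2, g1, mix Λ c1 c2, ?_, ?_, ?_⟩
        · intro b hb
          rcases mem_union.mp hb with hb | hb
          · exact a1 b hb
          · exact g4 z hzW (Or.inr a2) b hb
        · exact satP_congr (g2 z' hzW' (Or.inr a2)) p1
        · intro y hy hyz hyz'
          by_cases hyW : y ∈ W
          · exact sat_congr (g2 y hyW (Or.inr a2)) (b1 y hyW hyz hyz')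
          · have hyP : y ∈ pts s L := (mem_union.mp hy).resolve_left hyW
            have hyx : y ≠ x := fun h => hyW (h ▸ hxW)
            exact sat_congr (g3 y hyP (Or.inl hyx)) (b2 y hyP hyx)
      · have hzP' : z' ∈ pts s L := (mem_union.mp hz').resolve_left hzW'
        have hzx' : z' ≠ x := fun h => hzW' (h ▸ hxW)
        obtain ⟨L1, h1, c1, a1, b1⟩ := rW.near z hzW
        obtain ⟨L2, h2, c2, a2, p2, b2⟩ := rP.near2 x hxP z' hzP' (Ne.symm hzx') κ
        obtain ⟨g1, g2, g3, g4, g5⟩ := glue_core s Λ L W x hd hΛ hL hx L1 L2 c1 c2 h1 h2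
        refine ⟨L1 ∪ L2, g1, mix Λ c1 c2, ?_, ?_, ?_⟩
        · intro b hb
          rcases mem_union.mp hb with hb | hb
          · exact a1 b hb
          · exact g4 z hzW (Or.inr a2) b hb
        · exact satP_congr (g3 z' hzP' (Or.inl hzx')) p2
        · intro y hy hyz hyz'
          by_cases hyW : y ∈ W
          · exact sat_congr (g2 y hyW (Or.inr a2)) (b1 y hyW hyz)
          · have hyP : y ∈ pts s L := (mem_union.mp hy).resolve_left hyW
            have hyx : y ≠ x := fun h => hyW (h ▸ hxW)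
            exact sat_congr (g3 y hyP (Or.inl hyx)) (b2 y hyP hyx hyz')
    · have hzP : z ∈ pts s L := (mem_union.mp hz).resolve_left hzW
      have hzx : z ≠ x := fun h => hzW (h ▸ hxW)
      by_cases hzP' : z' ∈ pts s L
      · obtain ⟨L1, h1, c1, a1, b1⟩ := rW.near x hxW
        obtain ⟨L2, h2, c2, a2, p2, b2⟩ := rP.near2 z hzP z' hzP' hzz κ
        obtain ⟨g1, g2, g3, g4, g5⟩ := glue_core s Λ L W x hd hΛ hL hx L1 L2 c1 c2 h1 h2
        refine ⟨L1 ∪ L2, g1, mix Λ c1 c2, ?_, ?_, ?_⟩
        · intro b hb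
          rcases mem_union.mp hb with hb | hb
          · exact g5 z hzP (Or.inl hzx) b hb
          · exact a2 b hb
        · exact satP_congr (g3 z' hzP' (Or.inr a1)) p2
        · intro y hy hyz hyz'
          by_cases hyP : y ∈ pts s L
          · exact sat_congr (g3 y hyP (Or.inr a1)) (b2 y hyP hyz hyz')
          · have hyW : y ∈ W := (mem_union.mp hy).resolve_right hyP
            have hyx : y ≠ x := fun h => hyP (h ▸ hxP)
            exact sat_congr (g2 y hyW (Or.inl hyx)) (b1 y hyW hyx)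
      · have hzW' : z' ∈ W := (mem_union.mp hz').resolve_right hzP'
        have hzx' : z' ≠ x := fun h => hzP' (h ▸ hxP)
        obtain ⟨L1, h1, c1, a1, p1, b1⟩ := rW.near2 x hxW z' hzW' (Ne.symm hzx') κ
        obtain ⟨L2, h2, c2, a2, b2⟩ := rP.near z hzP
        obtain ⟨g1, g2, g3, g4, g5⟩ := glue_core s Λ L W x hd hΛ hL hx L1 L2 c1 c2 h1 h2
        refine ⟨L1 ∪ L2, g1, mix Λ c1 c2, ?_, ?_, ?_⟩
        · intro b hb
          rcases mem_union.mp hb with hb | hb
          · exact g5 z hzP (Or.inl hzx) b hb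
          · exact a2 b hb
        · exact satP_congr (g2 z' hzW' (Or.inl hzx')) p1
        · intro y hy hyz hyz'
          by_cases hyP : y ∈ pts s L
          · exact sat_congr (g3 y hyP (Or.inr a1)) (b2 y hyP hyz)
          · have hyW : y ∈ W := (mem_union.mp hy).resolve_right hyP
            have hyx : y ≠ x := fun h => hyP (h ▸ hxP)
            exact sat_congr (g2 y hyW (Or.inl hyx)) (b1 y hyW hyx hyz')
  · -- compl
    intro Y hYU hYne hYc κ
    by_cases hY2 : Y ⊆ W
    · obtain ⟨L1, h1, c1, b1⟩ := rW.compl Y hY2 hYne hYc κ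
      obtain ⟨L2, h2, c2, a2, b2⟩ := rP.near x hxP
      obtain ⟨g1, g2, g3, g4, g5⟩ := glue_core s Λ L W x hd hΛ hL hx L1 L2 c1 c2 h1 h2
      refine ⟨L1 ∪ L2, g1, mix Λ c1 c2, ?_⟩
      intro y hy
      by_cases hyW : y ∈ W
      · exact ⟨fun h => sat_congr (g2 y hyW (Or.inr a2)) ((b1 y hyW).1 h),
          fun h => satP_congr (g2 y hyW (Or.inr a2)) ((b1 y hyW).2 h)⟩
      · have hyP : y ∈ pts s L := (mem_union.mp hy).resolve_left hyW
        have hyx : y ≠ x := fun h => hyW (h ▸ hxW)
        exact ⟨fun h => sat_congr (g3 y hyP (Or.inl hyx)) (b2 y hyP hyx),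
          fun h => absurd (hY2 h) hyW⟩
    · by_cases hY1 : Y ⊆ pts s L
      · obtain ⟨L1, h1, c1, a1, b1⟩ := rW.near x hxW
        obtain ⟨L2, h2, c2, b2⟩ := rP.compl Y hY1 hYne hYc κ
        obtain ⟨g1, g2, g3, g4, g5⟩ := glue_core s Λ L W x hd hΛ hL hx L1 L2 c1 c2 h1 h2
        refine ⟨L1 ∪ L2, g1, mix Λ c1 c2, ?_⟩
        intro y hy
        by_cases hyP : y ∈ pts s L
        · exact ⟨fun h => sat_congr (g3 y hyP (Or.inr a1)) ((b2 y hyP).1 h),
            fun h => satP_congr (g3 y hyP (Or.inr a1)) ((b2 y hyP).2 h)⟩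
        · have hyW : y ∈ W := (mem_union.mp hy).resolve_right hyP
          have hyx : y ≠ x := fun h => hyP (h ▸ hxP)
          exact ⟨fun h => sat_congr (g2 y hyW (Or.inl hyx)) (b1 y hyW hyx),
            fun h => absurd (hY1 h) hyP⟩
      · -- a point of Y outside W and a point of Y outside P
        obtain ⟨u, huY, huW⟩ := Finset.not_subset.mp hY2
        obtain ⟨v, hvY, hvP⟩ := Finset.not_subset.mp hY1
        have huP : u ∈ pts s L := (mem_union.mp (hYU huY)).resolve_left huW
        have hvW : v ∈ W := (mem_union.mp (hYU hvY)).resolve_right hvP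
        have hux : u ≠ x := fun h => huW (h ▸ hxW)
        have hvx : v ≠ x := fun h => hvP (h ▸ hxP)
        have huv : u ≠ v := fun h => huW (h ▸ hvW)
        by_cases hone : ∀ y ∈ Y, y ∉ W → y = u
        · -- exactly one point outside W
          have hsub : Y.filter (fun y => y ∈ W) ⊆ W := fun y hy => (mem_filter.mp hy).2
          have hne : (Y.filter (fun y => y ∈ W)).Nonempty := ⟨v, mem_filter.mpr ⟨hvY, hvW⟩⟩
          have hc : (Y.filter (fun y => y ∈ W)).card ≤ 3 :=
            le_trans (card_le_card (filter_subset _ _)) hYc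
          obtain ⟨L1, h1, c1, b1⟩ := rW.compl _ hsub hne hc κ
          obtain ⟨L2, h2, c2, a2, p2, b2⟩ := rP.near2 x hxP u huP (Ne.symm hux) κ
          obtain ⟨g1, g2, g3, g4, g5⟩ := glue_core s Λ L W x hd hΛ hL hx L1 L2 c1 c2 h1 h2
          refine ⟨L1 ∪ L2, g1, mix Λ c1 c2, ?_⟩
          intro y hy
          by_cases hyW : y ∈ W
          · exact ⟨fun h => sat_congr (g2 y hyW (Or.inr a2))
                ((b1 y hyW).1 (fun h' => h (mem_filter.mp h').1)),
              fun h => satP_congr (g2 y hyW (Or.inr a2))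
                ((b1 y hyW).2 (mem_filter.mpr ⟨h, hyW⟩))⟩
          · have hyP : y ∈ pts s L := (mem_union.mp hy).resolve_left hyW
            have hyx : y ≠ x := fun h => hyW (h ▸ hxW)
            refine ⟨fun h => sat_congr (g3 y hyP (Or.inl hyx)) (b2 y hyP hyx ?_), fun h => ?_⟩
            · rintro rfl
              exact h huY
            · have := hone y h hyW
              subst this
              exact satP_congr (g3 y hyP (Or.inl hyx)) p2
        · -- two points outside W, exactly one point outside P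
          push Not at hone
          obtain ⟨u', hu'Y, hu'W, hu'u⟩ := hone
          have hu'P : u' ∈ pts s L := (mem_union.mp (hYU hu'Y)).resolve_left hu'W
          have hu'v : u' ≠ v := fun h => hu'W (h ▸ hvW)
          have hYeq : Y = {u, u', v} := by
            symm
            apply Finset.eq_of_subset_of_card_le
            · intro y hy
              simp only [mem_insert, mem_singleton] at hy
              rcases hy with rfl | rfl | rfl
              · exact huY
              · exact hu'Y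
              · exact hvY
            · rw [Finset.card_insert_of_notMem, Finset.card_insert_of_notMem,
                Finset.card_singleton]
              · exact hYc
              · simpa using hu'v
              · simp only [mem_insert, mem_singleton]
                push Not
                exact ⟨Ne.symm hu'u, huv⟩
          have hY2sub : ({u, u'} : Finset V) ⊆ pts s L := by
            intro y hy
            simp only [mem_insert, mem_singleton] at hy
            rcases hy with rfl | rfl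
            · exact huP
            · exact hu'P
          have hc2 : ({u, u'} : Finset V).card ≤ 3 := le_trans (Finset.card_le_two) (by norm_num)
          obtain ⟨L1, h1, c1, a1, p1, b1⟩ := rW.near2 x hxW v hvW (Ne.symm hvx) κ
          obtain ⟨L2, h2, c2, b2⟩ := rP.compl {u, u'} hY2sub ⟨u, by simp⟩ hc2 κ
          obtain ⟨g1, g2, g3, g4, g5⟩ := glue_core s Λ L W x hd hΛ hL hx L1 L2 c1 c2 h1 h2
          refine ⟨L1 ∪ L2, g1, mix Λ c1 c2, ?_⟩
          intro y hy
          by_cases hyP : y ∈ pts s L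
          · have hyv : y ≠ v := fun h => hvP (h ▸ hyP)
            refine ⟨fun h => sat_congr (g3 y hyP (Or.inr a1)) ((b2 y hyP).1 ?_),
              fun h => satP_congr (g3 y hyP (Or.inr a1)) ((b2 y hyP).2 ?_)⟩
            · intro h'
              apply h
              rw [hYeq]
              simp only [mem_insert, mem_singleton] at h' ⊢
              tauto
            · rw [hYeq] at h
              simp only [mem_insert, mem_singleton] at h ⊢
              tauto
          · have hyW : y ∈ W := (mem_union.mp hy).resolve_right hyP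
            have hyx : y ≠ x := fun h => hyP (h ▸ hxP)
            refine ⟨fun h => sat_congr (g2 y hyW (Or.inl hyx)) (b1 y hyW hyx ?_),
              fun h => ?_⟩
            · rintro rfl
              exact h hvY
            · rw [hYeq] at h
              simp only [mem_insert, mem_singleton] at h
              rcases h with rfl | rfl | rfl
              · exact absurd hyW huW
              · exact absurd hyW hu'W
              · exact satP_congr (g2 y hyW (Or.inl hyx)) p1

end Pool.Agent.Helper29_CF.H14
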