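import Mathlib
import Pool.Agent.Helper29_CF.Defs
import Pool.Agent.Helper29_CF.Stmt
import Pool.Agent.Helper14_CF.Glue

/-!
Module THMA of the squad `cf`: removing clusters of glued Paschs.
-/

namespace Pool.Agent.Helper29_CF.H14

open Finset

section

variable {V B : Type} [DecidableEq V] [DecidableEq B]

theorem sat_congr' {s s' : B → Finset V} {C C' : Finset B} {c c' : B → Bool} {y : V}
    (h : ∀ κ, cdeg s' C' c' κ y = cdeg s C c κ y) (hs : Sat s C c y) : Sat s' C' c' y := by
  obtain ⟨κ, hκ⟩ := hs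
  exact ⟨κ, by rw [h κ]; exact hκ⟩

theorem satP_congr' {s s' : B → Finset V} {C C' : Finset B} {c c' : B → Bool} {y : V}
    {κ : Bool} (h : ∀ κ, cdeg s' C' c' κ y = cdeg s C c κ y) (hs : SatP s C c κ y) :
    SatP s' C' c' κ y := by
  unfold SatP at hs ⊢
  rw [h κ, h (!κ)]
  exact hs

theorem mem_pts {s : B → Finset V} {L : Finset B} {x : V} :
    x ∈ pts s L ↔ ∃ b ∈ L, x ∈ s b := by
  simp [pts]

theorem deg_congr {s s' : B → Finset V} {F : Finset B} (h : ∀ b ∈ F, s b = s' b) (x : V) :
    deg s F x = deg s' F x := by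
  unfold deg
  congr 1
  apply Finset.filter_congr
  intro b hb
  rw [h b hb]

theorem cdeg_congr {s s' : B → Finset V} {F : Finset B} (h : ∀ b ∈ F, s b = s' b)
    (c : B → Bool) (κ : Bool) (x : V) : cdeg s F c κ x = cdeg s' F c κ x := by
  unfold cdeg
  congr 1
  apply Finset.filter_congr
  intro b hb
  rw [h b hb]

theorem pts_congr {s s' : B → Finset V} {F : Finset B} (h : ∀ b ∈ F, s b = s' b) :
    pts s F = pts s' F := by
  unfold pts
  exact Finset.biUnion_congr rfl h

theorem pasch_congr {s s' : B → Finset V} {L : Finset B} (h : ∀ b ∈ L, s b = s' b)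
    (hP : Pasch s' L) : Pasch s L := by
  refine ⟨hP.1, ?_, ?_, ?_⟩
  · intro b hb
    rw [h b hb]
    exact hP.2.1 b hb
  · intro b hb b' hb' hne
    rw [h b hb, h b' hb']
    exact hP.2.2.1 b hb b' hb' hne
  · intro x
    rw [deg_congr h x]
    exact hP.2.2.2 x

theorem robust_congr {s s' : B → Finset V} {Λ : Finset B} {W : Finset V}
    (h : ∀ b ∈ Λ, s b = s' b) (hR : Robust s' Λ W) : Robust s Λ W := by
  refine ⟨?_, ?_, ?_⟩
  · intro x hx
    obtain ⟨L1, h1, c, a, b⟩ := hR.near x hx
    have hc : ∀ b ∈ L1, s b = s' b := fun b hb => h b (h1 hb)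
    refine ⟨L1, h1, c, fun b hb => by rw [hc b hb]; exact a b hb, fun y hy hyx => ?_⟩
    exact sat_congr' (fun κ => cdeg_congr hc c κ y) (b y hy hyx)
  · intro x hx x' hx' hne κ
    obtain ⟨L1, h1, c, a, p, b⟩ := hR.near2 x hx x' hx' hne κ
    have hc : ∀ b ∈ L1, s b = s' b := fun b hb => h b (h1 hb)
    refine ⟨L1, h1, c, fun b hb => by rw [hc b hb]; exact a b hb, ?_, fun y hy hyx hyx' => ?_⟩
    · exact satP_congr' (fun κ => cdeg_congr hc c κ x') p
    · exact sat_congr' (fun κ => cdeg_congr hc c κ y) (b y hy hyx hyx')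
  · intro Y hY hYn hYc κ
    obtain ⟨L1, h1, c, b⟩ := hR.compl Y hY hYn hYc κ
    have hc : ∀ b ∈ L1, s b = s' b := fun b hb => h b (h1 hb)
    refine ⟨L1, h1, c, fun y hy => ⟨fun hn => ?_, fun hn => ?_⟩⟩
    · exact sat_congr' (fun κ => cdeg_congr hc c κ y) ((b y hy).1 hn)
    · exact satP_congr' (fun κ => cdeg_congr hc c κ y) ((b y hy).2 hn)

theorem deg_split {s : B → Finset V} {K L : Finset B} (hL : L ⊆ K) (x : V) :
    deg s K x = deg s L x + deg s (K \ L) x := by
  unfold deg
  rw [← Finset.card_union_of_disjoint]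
  · congr 1
    ext b
    simp only [mem_filter, mem_union, mem_sdiff]
    constructor
    · rintro ⟨h1, h2⟩
      by_cases hb : b ∈ L
      · exact Or.inl ⟨hb, h2⟩
      · exact Or.inr ⟨⟨h1, hb⟩, h2⟩
    · rintro (⟨h1, h2⟩ | ⟨⟨h1, _⟩, h2⟩)
      · exact ⟨hL h1, h2⟩
      · exact ⟨h1, h2⟩
  · rw [Finset.disjoint_left]
    intro b hb hb'
    exact (mem_sdiff.mp (mem_filter.mp hb').1).2 (mem_filter.mp hb).1

theorem deg_eq_zero {s : B → Finset V} {F : Finset B} {x : V} (h : ∀ b ∈ F, x ∉ s b) :
    deg s F x = 0 := by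
  unfold deg
  rw [Finset.card_eq_zero, Finset.filter_eq_empty_iff]
  intro b hb
  exact h b hb

theorem deg_pos {s : B → Finset V} {F : Finset B} {x : V} {b : B} (hb : b ∈ F) (hx : x ∈ s b) :
    deg s F x ≠ 0 := by
  unfold deg
  rw [Finset.card_ne_zero]
  exact ⟨b, mem_filter.mpr ⟨hb, hx⟩⟩

theorem pasch_deg {s : B → Finset V} {L : Finset B} (hP : Pasch s L) {x : V}
    (hx : x ∈ pts s L) : deg s L x = 2 := by
  obtain ⟨b, hb, hxb⟩ := mem_pts.mp hx
  rcases hP.2.2.2 x with h | h
  · exact absurd h (deg_pos hb hxb)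
  · exact h

theorem pasch_nonempty {s : B → Finset V} {L : Finset B} (hP : Pasch s L) :
    ∃ b ∈ L, (s b).card = 3 := by
  have : L.Nonempty := by
    rw [← Finset.card_pos, hP.1]
    norm_num
  obtain ⟨b, hb⟩ := this
  exact ⟨b, hb, hP.2.1 b hb⟩

/-- a leaf Pasch -/
theorem exists_leaf {s : B → Finset V} {K : Finset B} (h : ¬ NoLeaf s K) :
    ∃ L ⊆ K, Pasch s L ∧ ∃ x ∈ pts s L, ∀ b ∈ K, b ∉ L → s b ∩ pts s L ⊆ {x} := by
  unfold NoLeaf at h
  push Not at h
  obtain ⟨L, hL, hP, h⟩ := h
  refine ⟨L, hL, hP, ?_⟩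
  by_cases hex : ∃ x ∈ pts s L, ∃ b ∈ K, b ∉ L ∧ x ∈ s b
  · obtain ⟨x, hx, hb⟩ := hex
    refine ⟨x, hx, ?_⟩
    intro b' hb' hb'L y hy
    rw [mem_singleton]
    by_contra hne
    have := h x hx y (mem_inter.mp hy).2 (Ne.symm hne) hb b' hb' hb'L
    exact this (mem_inter.mp hy).1
  · push Not at hex
    obtain ⟨b, hb, hc⟩ := pasch_nonempty hP
    have : (s b).Nonempty := by
      rw [← Finset.card_pos, hc]
      norm_num
    obtain ⟨x, hx⟩ := this
    refine ⟨x, mem_pts.mpr ⟨b, hb, hx⟩, ?_⟩
    intro b' hb' hb'L y hy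
    exact absurd (mem_inter.mp hy).1 (hex y (mem_inter.mp hy).2 b' hb' hb'L)

end

/-- the conclusion of THMA -/
def Concl {V B : Type} [DecidableEq V] [DecidableEq B] (s : B → Finset V) (K : Finset B)
    (X : Finset V) : Prop :=
  ∃ (T : Finset (Finset V)) (fam : Finset V → Finset (Finset B)) (C : Finset B)
      (c : B → Bool), (∀ W ∈ T, W ⊆ X ∧ IsCluster s K W (fam W)) ∧
      (∀ W ∈ T, ∀ W' ∈ T, W ≠ W' → Disjoint W W') ∧ C ⊆ K ∧
      (∀ W ∈ T, ∀ L ∈ fam W, Disjoint C L) ∧
      ∀ x ∈ X, (∀ W ∈ T, x ∉ W) → Sat s C c x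

/-- the case without leaves -/
theorem case0 (kstar : KStarStmt) {V B : Type} [Fintype V] [DecidableEq V] [Fintype B]
    [DecidableEq B] (s : B → Finset V) (K : Finset B) (X : Finset V)
    (hK : ∀ b ∈ K, (s b).Nonempty ∧ (s b).card ≤ 3 ∧ s b ⊆ X)
    (hX : ∀ x ∈ X, 2 ≤ deg s K x ∧ deg s K x ≤ 4) (hN : NoLeaf s K) : Concl s K X := by
  set s' : B → Finset {x // x ∈ X} := fun b => (s b).subtype (fun x => x ∈ X) with hs'
  have hmem : ∀ (b : B) (x : {x // x ∈ X}), x ∈ s' b ↔ x.1 ∈ s b := by
    intro b x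
    simp [hs']
  have hdeg : ∀ (F : Finset B) (x : {x // x ∈ X}), deg s' F x = deg s F x.1 := by
    intro F x
    unfold deg
    congr 1
    apply Finset.filter_congr
    intro b _
    exact hmem b x
  have hcdeg : ∀ (F : Finset B) (c : B → Bool) (κ : Bool) (x : {x // x ∈ X}),
      cdeg s' F c κ x = cdeg s F c κ x.1 := by
    intro F c κ x
    unfold cdeg
    congr 1
    apply Finset.filter_congr
    intro b _
    rw [hmem b x]
  have hcard : ∀ (Y : Finset V), Y ⊆ X → (Y.subtype (fun x => x ∈ X)).card = Y.card := by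
    intro Y hY
    rw [Finset.card_subtype]
    congr 1
    rw [Finset.filter_eq_self]
    exact fun x hx => hY hx
  have h1 : ∀ b ∈ K, (s' b).Nonempty ∧ (s' b).card ≤ 3 := by
    intro b hb
    have hc : (s' b).card = (s b).card := hcard (s b) (hK b hb).2.2
    refine ⟨?_, ?_⟩
    · rw [← Finset.card_pos, hc, Finset.card_pos]
      exact (hK b hb).1
    · rw [hc]
      exact (hK b hb).2.1
  have h2 : ∀ x : {x // x ∈ X}, 2 ≤ deg s' K x ∧ deg s' K x ≤ 4 := by
    intro x
    rw [hdeg]
    exact hX x.1 x.2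
  have h3 : NoLeaf s' K := by
    intro L hL hP
    have hPs : Pasch s L := by
      refine ⟨hP.1, ?_, ?_, ?_⟩
      · intro b hb
        rw [← hcard (s b) (hK b (hL hb)).2.2]
        exact hP.2.1 b hb
      · intro b hb b' hb' hne
        have hsub : s b ∩ s b' ⊆ X := fun x hx => (hK b (hL hb)).2.2 (mem_inter.mp hx).1
        rw [← hcard _ hsub]
        have : (s b ∩ s b').subtype (fun x => x ∈ X) = s' b ∩ s' b' := by
          ext x
          simp [hs']
        rw [this]
        exact hP.2.2.1 b hb b' hb' hne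
      · intro x
        by_cases hx : x ∈ X
        · have := hP.2.2.2 ⟨x, hx⟩
          rw [hdeg] at this
          exact this
        · left
          apply deg_eq_zero
          intro b hb hxb
          exact hx ((hK b (hL hb)).2.2 hxb)
    obtain ⟨x, hx, y, hy, hne, ⟨b, hb, hbL, hxb⟩, ⟨b', hb', hbL', hyb⟩⟩ := hN L hL hPs
    have hxX : x ∈ X := (hK b hb).2.2 hxb
    have hyX : y ∈ X := (hK b' hb').2.2 hyb
    refine ⟨⟨x, hxX⟩, ?_, ⟨y, hyX⟩, ?_, ?_, ⟨b, hb, hbL, ?_⟩, ⟨b', hb', hbL', ?_⟩⟩
    · obtain ⟨l, hl, hxl⟩ := mem_pts.mp hx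
      exact mem_pts.mpr ⟨l, hl, (hmem l ⟨x, hxX⟩).mpr hxl⟩
    · obtain ⟨l, hl, hyl⟩ := mem_pts.mp hy
      exact mem_pts.mpr ⟨l, hl, (hmem l ⟨y, hyX⟩).mpr hyl⟩
    · intro h
      exact hne (congrArg Subtype.val h)
    · exact (hmem b ⟨x, hxX⟩).mpr hxb
    · exact (hmem b' ⟨y, hyX⟩).mpr hyb
  obtain ⟨C, hC, c, hc⟩ := kstar s' K h1 h2 h3
  refine ⟨∅, fun _ => ∅, C, c, ?_, ?_, hC, ?_, ?_⟩
  · intro W hW
    simp at hW
  · intro W hW
    simp at hW
  · intro W hW
    simp at hW
  · intro x hx _
    obtain ⟨κ, hκ⟩ := hc ⟨x, hx⟩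
    exact ⟨κ, by rw [← hcdeg C c κ ⟨x, hx⟩]; exact hκ⟩

section

variable {V B : Type} [Fintype V] [DecidableEq V] [Fintype B] [DecidableEq B]

/-- points of a block of `L` -/
theorem sub_pts {s : B → Finset V} {L : Finset B} {b : B} (hb : b ∈ L) : s b ⊆ pts s L :=
  fun _ hx => mem_pts.mpr ⟨b, hb, hx⟩

/-- no Pasch of `K` different from `L` meets `L` -/
theorem iso_of (leafiso : LeafIsoStmt) {s : B → Finset V} {K L : Finset B} {x0 : V}
    (hL : L ⊆ K) (hP : Pasch s L) (hx0 : ∀ b ∈ K, b ∉ L → s b ∩ pts s L ⊆ {x0})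
    {L' : Finset B} (hP' : Pasch s L') (hL' : L' ⊆ K) {b : B} (hb' : b ∈ L') (hb : b ∈ L) :
    L' = L := by
  by_contra hne
  exact (Finset.disjoint_left.mp (leafiso s K L x0 hL hP hx0 L' hP' hL' hne) hb) hb'

/-- case of two exits -/
theorem case1 (leafiso : LeafIsoStmt) (prob : PRobStmt) (glue : GlueStmt)
    (s : B → Finset V) (K L : Finset B) (X : Finset V) (x0 : V)
    (hK : ∀ b ∈ K, (s b).Nonempty ∧ (s b).card ≤ 3 ∧ s b ⊆ X)
    (hL : L ⊆ K) (hP : Pasch s L) (hx0L : x0 ∈ pts s L)
    (hx0 : ∀ b ∈ K, b ∉ L → s b ∩ pts s L ⊆ {x0})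
    (hC : Concl s (K \ L) (X \ (pts s L).erase x0)) : Concl s K X := by
  obtain ⟨T, fam, C, c, hT, hTd, hCK, hCf, hsat⟩ := hC
  have hLX : pts s L ⊆ X := by
    intro x hx
    obtain ⟨b, hb, hxb⟩ := mem_pts.mp hx
    exact (hK b (hL hb)).2.2 hxb
  have hx0X : x0 ∈ X \ (pts s L).erase x0 := by
    rw [mem_sdiff]
    exact ⟨hLX hx0L, by simp⟩
  -- intersections with pts L
  have hWL : ∀ W ∈ T, ∀ y ∈ W, y ∈ pts s L → y = x0 := by
    intro W hW y hy hyL
    have := (mem_sdiff.mp ((hT W hW).1 hy)).2
    by_contra hne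
    exact this (mem_erase.mpr ⟨hne, hyL⟩)
  have hWX : ∀ W ∈ T, W ⊆ X := fun W hW y hy => (mem_sdiff.mp ((hT W hW).1 hy)).1
  -- facts about the members of the families
  have hmem : ∀ W ∈ T, ∀ L1 ∈ fam W, L1 ⊆ K \ L := fun W hW L1 h1 =>
    ((hT W hW).2.pasch L1 h1).2
  have hptsW : ∀ W ∈ T, ∀ L1 ∈ fam W, pts s L1 ⊆ W := by
    intro W hW L1 h1 y hy
    rw [(hT W hW).2.eq]
    unfold famPts
    rw [mem_biUnion]
    exact ⟨L1, h1, hy⟩
  have hone : ∀ W ∈ T, ∀ L1 ∈ fam W, ∀ b ∈ K, b ∉ L1 → (s b ∩ pts s L1).card ≤ 1 := by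
    intro W hW L1 h1 b hb hbL1
    by_cases hbL : b ∈ L
    · have : s b ∩ pts s L1 ⊆ {x0} := by
        intro y hy
        rw [mem_singleton]
        exact hWL W hW y (hptsW W hW L1 h1 (mem_inter.mp hy).2) (sub_pts hbL (mem_inter.mp hy).1)
      calc (s b ∩ pts s L1).card ≤ ({x0} : Finset V).card := card_le_card this
        _ = 1 := card_singleton _
    · exact (hT W hW).2.one L1 h1 b (mem_sdiff.mpr ⟨hb, hbL⟩) hbL1
  have hiso : ∀ W ∈ T, ∀ L1 ∈ fam W, ∀ L', Pasch s L' → L' ⊆ K → L' ≠ L1 →
      Disjoint L1 L' := by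
    intro W hW L1 h1 L' hP' hL' hne
    by_cases hsub : L' ⊆ K \ L
    · exact (hT W hW).2.iso L1 h1 L' hP' hsub hne
    · obtain ⟨b, hb, hbn⟩ := Finset.not_subset.mp hsub
      have hbL : b ∈ L := by
        by_contra h
        exact hbn (mem_sdiff.mpr ⟨hL' hb, h⟩)
      have := iso_of leafiso hL hP hx0 hP' hL' hb hbL
      subst this
      rw [Finset.disjoint_left]
      intro b' hb' hb''
      exact (mem_sdiff.mp (hmem W hW L1 h1 hb')).2 hb''
  -- clusters not containing x0
  have hclus : ∀ W ∈ T, x0 ∉ W → IsCluster s K W (fam W) := by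
    intro W hW hx0W
    have hc := (hT W hW).2
    refine ⟨hc.ne, fun L1 h1 => ⟨(hc.pasch L1 h1).1, fun b hb =>
      (mem_sdiff.mp ((hc.pasch L1 h1).2 hb)).1⟩, hc.eq, ?_, hone W hW, hiso W hW, hc.rob⟩
    obtain ⟨e, he⟩ := hc.closed
    refine ⟨e, fun b hb hbd => ?_⟩
    have hbL : b ∉ L := by
      intro hbL
      apply hbd
      rw [Finset.disjoint_left]
      intro y hy hyW
      rw [← hc.eq] at hyW
      have := hWL W hW y hyW (sub_pts hbL hy)
      exact hx0W (this ▸ hyW)
    exact he b (mem_sdiff.mpr ⟨hb, hbL⟩) hbd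
  by_cases hex : ∃ W ∈ T, x0 ∈ W
  · -- glue
    obtain ⟨W, hW, hx0W⟩ := hex
    have hc := (hT W hW).2
    set W1 : Finset V := W ∪ pts s L with hW1
    have hWP : W ∩ pts s L = {x0} := by
      ext y
      rw [mem_inter, mem_singleton]
      constructor
      · rintro ⟨h1, h2⟩
        exact hWL W hW y h1 h2
      · rintro rfl
        exact ⟨hx0W, hx0L⟩
    -- a further point of pts L
    obtain ⟨u, huL, hux⟩ : ∃ u ∈ pts s L, u ≠ x0 := by
      obtain ⟨b, hb, hc3⟩ := pasch_nonempty hP
      have : 1 < (s b).card := by omega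
      obtain ⟨u, hu, hne⟩ := Finset.exists_mem_ne this x0
      exact ⟨u, sub_pts hb hu, hne⟩
    have hother : ∀ W' ∈ T, u ∉ W' := fun W' hW' hu => hux (hWL W' hW' u hu huL)
    have hW1T : ∀ W' ∈ T, W' ≠ W1 := by
      rintro W' hW' rfl
      exact hother _ hW' (mem_union_right _ huL)
    have hx0o : ∀ W' ∈ T, W' ≠ W → x0 ∉ W' := by
      intro W' hW' hne hx
      exact (Finset.disjoint_left.mp (hTd W' hW' W hW hne) hx) hx0W
    have hnew : IsCluster s K W1 (insert L (fam W)) := by
      refine ⟨⟨L, mem_insert_self _ _⟩, ?_, ?_, ?_, ?_, ?_, ?_⟩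
      · intro L1 h1
        rcases mem_insert.mp h1 with rfl | h1
        · exact ⟨hP, hL⟩
        · exact ⟨(hc.pasch L1 h1).1, fun b hb => (mem_sdiff.mp ((hc.pasch L1 h1).2 hb)).1⟩
      · unfold famPts
        rw [Finset.biUnion_insert, hW1, union_comm]
        congr 1
        exact hc.eq
      · obtain ⟨e, he⟩ := hc.closed
        have hfam : famPts s (insert L (fam W)) = W1 := by
          unfold famPts
          rw [Finset.biUnion_insert, hW1, union_comm]
          congr 1
          exact hc.eq.symm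
        refine ⟨e, fun b hb hbd => ?_⟩
        rw [hfam] at hbd ⊢
        by_cases hbL : b ∈ L
        · exact Or.inl ⟨L, mem_insert_self _ _, hbL⟩
        · have hint : s b ∩ W1 = s b ∩ W := by
            ext y
            simp only [mem_inter, hW1, mem_union]
            constructor
            · rintro ⟨h1, h2 | h2⟩
              · exact ⟨h1, h2⟩
              · have : y ∈ s b ∩ pts s L := mem_inter.mpr ⟨h1, h2⟩
                have := hx0 b hb hbL this
                rw [mem_singleton] at this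
                rw [this] at h1 ⊢
                exact ⟨h1, hx0W⟩
            · rintro ⟨h1, h2⟩
              exact ⟨h1, Or.inl h2⟩
          have hbd' : ¬ Disjoint (s b) (famPts s (fam W)) := by
            rw [← hc.eq]
            intro hdis
            apply hbd
            rw [Finset.disjoint_iff_inter_eq_empty] at hdis ⊢
            rw [hint]
            exact hdis
          rcases he b (mem_sdiff.mpr ⟨hb, hbL⟩) hbd' with ⟨L1, h1, h2⟩ | ⟨h1, h2⟩
          · exact Or.inl ⟨L1, mem_insert_of_mem h1, h2⟩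
          · right
            refine ⟨h1, ?_⟩
            rw [hint]
            rw [← hc.eq] at h2
            exact h2
      · intro L1 h1 b hb hbL1
        rcases mem_insert.mp h1 with rfl | h1
        · calc (s b ∩ pts s L1).card ≤ ({x0} : Finset V).card := card_le_card (hx0 b hb hbL1)
            _ = 1 := card_singleton _
        · exact hone W hW L1 h1 b hb hbL1
      · intro L1 h1 L' hP' hL' hne
        rcases mem_insert.mp h1 with rfl | h1
        · exact leafiso s K L1 x0 hL hP hx0 L' hP' hL' hne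
        · exact hiso W hW L1 h1 L' hP' hL' hne
      · have hΛ : ∀ b ∈ (fam W).biUnion id, s b ⊆ W := by
          intro b hb
          obtain ⟨L1, h1, h2⟩ := mem_biUnion.mp hb
          exact fun y hy => hptsW W hW L1 h1 (sub_pts h2 hy)
        have hdis : Disjoint ((fam W).biUnion id) L := by
          rw [Finset.disjoint_left]
          intro b hb hbL
          obtain ⟨L1, h1, h2⟩ := mem_biUnion.mp hb
          exact (mem_sdiff.mp (hmem W hW L1 h1 h2)).2 hbL
        have hg := glue s ((fam W).biUnion id) L W x0 hdis hΛ hc.rob (prob s L hP)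
          (fun b hb => sub_pts hb) hWP
        have : (insert L (fam W)).biUnion id = (fam W).biUnion id ∪ L := by
          rw [Finset.biUnion_insert, union_comm]
          rfl
        rw [this]
        exact hg
    refine ⟨insert W1 (T.erase W), Function.update fam W1 (insert L (fam W)), C, c, ?_, ?_,
      fun b hb => (mem_sdiff.mp (hCK hb)).1, ?_, ?_⟩
    · intro W' hW'
      rcases mem_insert.mp hW' with rfl | hW'
      · refine ⟨?_, ?_⟩
        · exact union_subset (hWX W hW) hLX
        · rw [Function.update_self]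
          exact hnew
      · have hW'T := mem_of_mem_erase hW'
        rw [Function.update_of_ne (hW1T W' hW'T)]
        exact ⟨hWX W' hW'T, hclus W' hW'T (hx0o W' hW'T (ne_of_mem_erase hW'))⟩
    · have key : ∀ W' ∈ T.erase W, Disjoint W1 W' := by
        intro W' hW'
        have hW'T := mem_of_mem_erase hW'
        have hne := ne_of_mem_erase hW'
        rw [Finset.disjoint_left]
        intro y hy hy'
        rcases mem_union.mp hy with hy | hy
        · exact (Finset.disjoint_left.mp (hTd W hW W' hW'T (Ne.symm hne)) hy) hy'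
        · have := hWL W' hW'T y hy' hy
          exact hx0o W' hW'T hne (this ▸ hy')
      intro W' hW' W'' hW'' hne
      rcases mem_insert.mp hW' with rfl | hW'
      · rcases mem_insert.mp hW'' with rfl | hW''
        · exact absurd rfl hne
        · exact key W'' hW''
      · rcases mem_insert.mp hW'' with rfl | hW''
        · exact (key W' hW').symm
        · exact hTd W' (mem_of_mem_erase hW') W'' (mem_of_mem_erase hW'') hne
    · intro W' hW' L1 h1
      rcases mem_insert.mp hW' with rfl | hW'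
      · rw [Function.update_self] at h1
        rcases mem_insert.mp h1 with rfl | h1
        · rw [Finset.disjoint_left]
          intro b hb hb'
          exact (mem_sdiff.mp (hCK hb)).2 hb'
        · exact hCf W hW L1 h1
      · have hW'T := mem_of_mem_erase hW'
        rw [Function.update_of_ne (hW1T W' hW'T)] at h1
        exact hCf W' hW'T L1 h1
    · intro x hx hxT
      have h1 : x ∉ W1 := hxT W1 (mem_insert_self _ _)
      have h2 : x ∉ pts s L := fun h => h1 (mem_union_right _ h)
      have h3 : x ∉ W := fun h => h1 (mem_union_left _ h)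
      refine hsat x ?_ ?_
      · rw [mem_sdiff]
        exact ⟨hx, fun h => h2 (mem_of_mem_erase h)⟩
      · intro W' hW'
        by_cases hWW : W' = W
        · rw [hWW]; exact h3
        · exact hxT W' (mem_insert_of_mem (mem_erase.mpr ⟨hWW, hW'⟩))
  · push Not at hex
    obtain ⟨L1, h1, c1, a1, b1⟩ := (prob s L hP).near x0 hx0L
    have hd : Disjoint (K \ L) L := by
      rw [Finset.disjoint_left]
      intro b hb hb'
      exact (mem_sdiff.mp hb).2 hb'
    refine ⟨T, fam, C ∪ L1, mix (K \ L) c c1, ?_, hTd, ?_, ?_, ?_⟩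
    · intro W hW
      exact ⟨hWX W hW, hclus W hW (hex W hW)⟩
    · intro b hb
      rcases mem_union.mp hb with hb | hb
      · exact (mem_sdiff.mp (hCK hb)).1
      · exact hL (h1 hb)
    · intro W hW L2 h2
      rw [Finset.disjoint_left]
      intro b hb hb'
      rcases mem_union.mp hb with hb | hb
      · exact (Finset.disjoint_left.mp (hCf W hW L2 h2) hb) hb'
      · exact (mem_sdiff.mp (hmem W hW L2 h2 hb')).2 (h1 hb)
    · intro x hx hxT
      by_cases hxL : x ∈ pts s L ∧ x ≠ x0
      · have hav : ∀ b ∈ C, x ∉ s b := by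
          intro b hb hxb
          have hb' := mem_sdiff.mp (hCK hb)
          have := hx0 b hb'.1 hb'.2 (mem_inter.mpr ⟨hxb, hxL.1⟩)
          rw [mem_singleton] at this
          exact hxL.2 this
        exact sat_congr (fun κ => cdeg_mix_right s (K \ L) L C L1 c c1 x hd h1 hav κ)
          (b1 x hxL.1 hxL.2)
      · have hav : ∀ b ∈ L1, x ∉ s b := by
          intro b hb hxb
          by_cases hxx : x = x0
          · exact a1 b hb (hxx ▸ hxb)
          · exact hxL ⟨sub_pts (h1 hb) hxb, hxx⟩
        refine sat_congr (fun κ => cdeg_mix_left s (K \ L) L C L1 c c1 x hCK hav κ)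
          (hsat x ?_ hxT)
        rw [mem_sdiff]
        refine ⟨hx, fun h => hxL ⟨mem_of_mem_erase h, ne_of_mem_erase h⟩⟩

/-- case of at most one exit -/
theorem case2 (leafiso : LeafIsoStmt) (prob : PRobStmt)
    (s : B → Finset V) (K L : Finset B) (X : Finset V) (x0 : V)
    (hK : ∀ b ∈ K, (s b).Nonempty ∧ (s b).card ≤ 3 ∧ s b ⊆ X)
    (hL : L ⊆ K) (hP : Pasch s L) (hx0L : x0 ∈ pts s L)
    (hx0 : ∀ b ∈ K, b ∉ L → s b ∩ pts s L ⊆ {x0}) (hdeg : deg s (K \ L) x0 ≤ 1)
    (hC : Concl (fun b => s b \ pts s L)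
      ((K \ L).filter (fun b => (s b \ pts s L).Nonempty)) (X \ pts s L)) : Concl s K X := by
  obtain ⟨T, fam, C, c, hT, hTd, hCK, hCf, hsat⟩ := hC
  set s' : B → Finset V := fun b => s b \ pts s L with hs'
  set K' : Finset B := (K \ L).filter (fun b => (s b \ pts s L).Nonempty) with hK'
  have hK'K : ∀ b ∈ K', b ∈ K ∧ b ∉ L := by
    intro b hb
    exact mem_sdiff.mp (mem_filter.mp hb).1
  have hLX : pts s L ⊆ X := by
    intro x hx
    obtain ⟨b, hb, hxb⟩ := mem_pts.mp hx
    exact (hK b (hL hb)).2.2 hxb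
  have hWL : ∀ W ∈ T, Disjoint W (pts s L) := by
    intro W hW
    rw [Finset.disjoint_left]
    intro y hy hyL
    exact (mem_sdiff.mp ((hT W hW).1 hy)).2 hyL
  have hWX : ∀ W ∈ T, W ⊆ X := fun W hW y hy => (mem_sdiff.mp ((hT W hW).1 hy)).1
  -- lines of members are not changed
  have hline : ∀ W ∈ T, ∀ L1 ∈ fam W, ∀ b ∈ L1, s b = s' b := by
    intro W hW L1 h1 b hb
    have hp := (hT W hW).2.pasch L1 h1
    have h3 : (s' b).card = 3 := hp.1.2.1 b hb
    have hbK := (hK'K b (hp.2 hb)).1
    symm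
    apply Finset.eq_of_subset_of_card_le
    · exact sdiff_subset
    · rw [h3]
      exact (hK b hbK).2.1
  have hfam : ∀ W ∈ T, famPts s (fam W) = W := by
    intro W hW
    have : famPts s (fam W) = famPts s' (fam W) := by
      unfold famPts
      exact Finset.biUnion_congr rfl (fun L1 h1 => pts_congr (hline W hW L1 h1))
    rw [this]
    exact ((hT W hW).2.eq).symm
  have hptsW : ∀ W ∈ T, ∀ L1 ∈ fam W, pts s L1 ⊆ W := by
    intro W hW L1 h1 y hy
    rw [← hfam W hW]
    unfold famPts
    rw [mem_biUnion]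
    exact ⟨L1, h1, hy⟩
  -- a block meeting a cluster
  have hmeet : ∀ b ∈ K, ∀ y ∈ s b, y ∉ pts s L → b ∈ K' := by
    intro b hb y hy hyL
    rw [hK', mem_filter, mem_sdiff]
    exact ⟨⟨hb, fun h => hyL (sub_pts h hy)⟩, ⟨y, mem_sdiff.mpr ⟨hy, hyL⟩⟩⟩
  have hint : ∀ W ∈ T, ∀ b, ∀ Y ⊆ W, s b ∩ Y = s' b ∩ Y := by
    intro W hW b Y hY
    ext y
    simp only [hs', mem_inter, mem_sdiff]
    constructor
    · rintro ⟨h1, h2⟩
      exact ⟨⟨h1, Finset.disjoint_left.mp (hWL W hW) (hY h2)⟩, h2⟩
    · rintro ⟨⟨h1, _⟩, h2⟩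
      exact ⟨h1, h2⟩
  have hclus : ∀ W ∈ T, IsCluster s K W (fam W) := by
    intro W hW
    have hc := (hT W hW).2
    refine ⟨hc.ne, ?_, (hfam W hW).symm, ?_, ?_, ?_, ?_⟩
    · intro L1 h1
      exact ⟨pasch_congr (hline W hW L1 h1) (hc.pasch L1 h1).1,
        fun b hb => (hK'K b ((hc.pasch L1 h1).2 hb)).1⟩
    · obtain ⟨e, he⟩ := hc.closed
      refine ⟨e, fun b hb hbd => ?_⟩
      have hWe : famPts s' (fam W) = W := hc.eq.symm
      rw [hfam W hW] at hbd ⊢
      rw [hWe] at he
      obtain ⟨y, hy, hyW⟩ := Finset.not_disjoint_iff.mp hbd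
      have hbK' := hmeet b hb y hy (Finset.disjoint_left.mp (hWL W hW) hyW)
      have hbd' : ¬ Disjoint (s' b) W := by
        rw [Finset.disjoint_iff_inter_eq_empty, ← hint W hW b W (Finset.Subset.refl _),
          ← Finset.disjoint_iff_inter_eq_empty]
        exact hbd
      rcases he b hbK' hbd' with h | ⟨h1, h2⟩
      · exact Or.inl h
      · right
        refine ⟨h1, ?_⟩
        rw [hint W hW b W (Finset.Subset.refl _)]
        exact h2
    · intro L1 h1 b hb hbL1
      by_cases hne : s b ∩ pts s L1 = ∅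
      · rw [hne]; simp
      · obtain ⟨y, hy⟩ := Finset.nonempty_iff_ne_empty.mpr hne
        have hyW := hptsW W hW L1 h1 (mem_inter.mp hy).2
        have hbK' := hmeet b hb y (mem_inter.mp hy).1 (Finset.disjoint_left.mp (hWL W hW) hyW)
        have := hc.one L1 h1 b hbK' hbL1
        rw [hint W hW b (pts s L1) (hptsW W hW L1 h1), pts_congr (hline W hW L1 h1)]
        exact this
    · intro L1 h1 L' hP' hL' hne
      rw [Finset.disjoint_left]
      intro b hb hb'
      -- L' does not meet L
      have hL'L : ∀ b' ∈ L', b' ∉ L := by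
        intro b' h2 h3
        have := iso_of leafiso hL hP hx0 hP' hL' h2 h3
        rw [this] at hb'
        have hb2 := (hK'K b ((hc.pasch L1 h1).2 hb)).2
        exact hb2 hb'
      -- its blocks are disjoint from pts L
      have hav : ∀ b' ∈ L', ∀ y ∈ s b', y ∉ pts s L := by
        intro b' h2 y hy hyL
        have h3 := hx0 b' (hL' h2) (hL'L b' h2) (mem_inter.mpr ⟨hy, hyL⟩)
        rw [mem_singleton] at h3
        subst h3
        have h4 : deg s L' y = 2 := pasch_deg hP' (sub_pts h2 hy)
        have h5 : deg s L' y ≤ deg s (K \ L) y := by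
          unfold deg
          apply card_le_card
          apply filter_subset_filter
          intro b'' h6
          exact mem_sdiff.mpr ⟨hL' h6, hL'L b'' h6⟩
        omega
      have hs2 : ∀ b' ∈ L', s' b' = s b' := by
        intro b' h2
        rw [hs']
        simp only
        rw [Finset.sdiff_eq_self_iff_disjoint, Finset.disjoint_left]
        exact hav b' h2
      have hsub : L' ⊆ K' := by
        intro b' h2
        have h3 : (s b').Nonempty := (hK b' (hL' h2)).1
        obtain ⟨y, hy⟩ := h3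
        exact hmeet b' (hL' h2) y hy (hav b' h2 y hy)
      exact (Finset.disjoint_left.mp (hc.iso L1 h1 L' (pasch_congr hs2 hP') hsub hne) hb) hb'
    · apply robust_congr (s' := s') _ hc.rob
      intro b hb
      obtain ⟨L1, h1, h2⟩ := mem_biUnion.mp hb
      exact hline W hW L1 h1 b h2
  -- the new cluster
  have hnew : IsCluster s K (pts s L) {L} := by
    have hfp : famPts s {L} = pts s L := by
      unfold famPts
      rw [Finset.singleton_biUnion]
    refine ⟨⟨L, mem_singleton_self _⟩, ?_, hfp.symm, ?_, ?_, ?_, ?_⟩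
    · intro L1 h1
      rw [mem_singleton] at h1
      subst h1
      exact ⟨hP, hL⟩
    · -- at most one exit
      by_cases hex : ∃ e ∈ K \ L, x0 ∈ s e
      · obtain ⟨e, he, hxe⟩ := hex
        refine ⟨some e, fun b hb hbd => ?_⟩
        rw [hfp] at hbd ⊢
        by_cases hbL : b ∈ L
        · exact Or.inl ⟨L, mem_singleton_self _, hbL⟩
        · right
          obtain ⟨y, hy, hyL⟩ := Finset.not_disjoint_iff.mp hbd
          have h3 := hx0 b hb hbL (mem_inter.mpr ⟨hy, hyL⟩)
          rw [mem_singleton] at h3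
          subst h3
          have hbe : b = e := by
            unfold deg at hdeg
            rw [Finset.card_le_one] at hdeg
            exact hdeg b (mem_filter.mpr ⟨mem_sdiff.mpr ⟨hb, hbL⟩, hy⟩) e
              (mem_filter.mpr ⟨he, hxe⟩)
          refine ⟨by rw [hbe], ?_⟩
          have : s b ∩ pts s L = {y} := by
            apply Finset.Subset.antisymm (hx0 b hb hbL)
            intro z hz
            rw [mem_singleton] at hz
            subst hz
            exact mem_inter.mpr ⟨hy, hyL⟩
          rw [this, card_singleton]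
      · push Not at hex
        refine ⟨none, fun b hb hbd => ?_⟩
        rw [hfp] at hbd ⊢
        by_cases hbL : b ∈ L
        · exact Or.inl ⟨L, mem_singleton_self _, hbL⟩
        · exfalso
          obtain ⟨y, hy, hyL⟩ := Finset.not_disjoint_iff.mp hbd
          have h3 := hx0 b hb hbL (mem_inter.mpr ⟨hy, hyL⟩)
          rw [mem_singleton] at h3
          subst h3
          exact hex b (mem_sdiff.mpr ⟨hb, hbL⟩) hy
    · intro L1 h1 b hb hbL1
      rw [mem_singleton] at h1
      subst h1
      calc (s b ∩ pts s L1).card ≤ ({x0} : Finset V).card := card_le_card (hx0 b hb hbL1)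
        _ = 1 := card_singleton _
    · intro L1 h1 L' hP' hL' hne
      rw [mem_singleton] at h1
      subst h1
      exact leafiso s K L1 x0 hL hP hx0 L' hP' hL' hne
    · rw [Finset.singleton_biUnion]
      exact prob s L hP
  have hne : ∀ W ∈ T, W ≠ pts s L := by
    rintro W hW rfl
    exact (Finset.disjoint_left.mp (hWL _ hW) hx0L) hx0L
  refine ⟨insert (pts s L) T, Function.update fam (pts s L) {L}, C, c, ?_, ?_,
    fun b hb => (hK'K b (hCK hb)).1, ?_, ?_⟩
  · intro W hW
    rcases mem_insert.mp hW with rfl | hW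
    · rw [Function.update_self]
      exact ⟨hLX, hnew⟩
    · rw [Function.update_of_ne (hne W hW)]
      exact ⟨hWX W hW, hclus W hW⟩
  · intro W hW W' hW' hne'
    rcases mem_insert.mp hW with rfl | hW
    · rcases mem_insert.mp hW' with rfl | hW'
      · exact absurd rfl hne'
      · exact (hWL W' hW').symm
    · rcases mem_insert.mp hW' with rfl | hW'
      · exact hWL W hW
      · exact hTd W hW W' hW' hne'
  · intro W hW L1 h1
    rcases mem_insert.mp hW with rfl | hW
    · rw [Function.update_self, mem_singleton] at h1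
      subst h1
      rw [Finset.disjoint_left]
      intro b hb hb'
      exact (hK'K b (hCK hb)).2 hb'
    · rw [Function.update_of_ne (hne W hW)] at h1
      exact hCf W hW L1 h1
  · intro x hx hxT
    have hxL : x ∉ pts s L := hxT _ (mem_insert_self _ _)
    have hS := hsat x (mem_sdiff.mpr ⟨hx, hxL⟩) (fun W hW => hxT W (mem_insert_of_mem hW))
    refine sat_congr' (fun κ => ?_) hS
    unfold cdeg
    congr 1
    apply Finset.filter_congr
    intro b _
    simp [hs', hxL]

end

theorem thma (kstar : KStarStmt) (leafiso : LeafIsoStmt) (prob : PRobStmt) (glue : GlueStmt) :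
    ThmAStmt := by
  intro V B _ _ _ _ s K X hK hX
  show Concl s K X
  induction hn : X.card using Nat.strong_induction_on generalizing s K X with
  | _ n ih =>
    by_cases hN : NoLeaf s K
    · exact case0 kstar s K X hK hX hN
    · obtain ⟨L, hL, hP, x0, hx0L, hx0⟩ := exists_leaf hN
      have hLX : pts s L ⊆ X := by
        intro x hx
        obtain ⟨b, hb, hxb⟩ := mem_pts.mp hx
        exact (hK b (hL hb)).2.2 hxb
      have hd0 := deg_split (s := s) hL x0
      rw [pasch_deg hP hx0L] at hd0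
      by_cases hd : deg s (K \ L) x0 ≤ 1
      · apply case2 leafiso prob s K L X x0 hK hL hP hx0L hx0 hd
        apply ih (X \ pts s L).card _ _ _ _ _ _ rfl
        · rw [← hn]
          apply card_lt_card
          rw [Finset.ssubset_iff_subset_ne]
          refine ⟨sdiff_subset, fun h => ?_⟩
          have : x0 ∈ X \ pts s L := by
            rw [h]
            exact hLX hx0L
          exact (mem_sdiff.mp this).2 hx0L
        · intro b hb
          rw [mem_filter, mem_sdiff] at hb
          refine ⟨hb.2, le_trans (card_le_card sdiff_subset) (hK b hb.1.1).2.1, ?_⟩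
          intro y hy
          rw [mem_sdiff] at hy ⊢
          exact ⟨(hK b hb.1.1).2.2 hy.1, hy.2⟩
        · intro x hx
          rw [mem_sdiff] at hx
          have : deg (fun b => s b \ pts s L)
              ((K \ L).filter (fun b => (s b \ pts s L).Nonempty)) x = deg s K x := by
            unfold deg
            congr 1
            ext b
            simp only [mem_filter, mem_sdiff]
            constructor
            · rintro ⟨⟨⟨h1, _⟩, _⟩, h2, _⟩
              exact ⟨h1, h2⟩
            · rintro ⟨h1, h2⟩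
              exact ⟨⟨⟨h1, fun h => hx.2 (sub_pts h h2)⟩,
                ⟨x, mem_sdiff.mpr ⟨h2, hx.2⟩⟩⟩, h2, hx.2⟩
          rw [this]
          exact hX x hx.1
      · have hd2 : deg s (K \ L) x0 = 2 := by
          have := (hX x0 (hLX hx0L)).2
          omega
        apply case1 leafiso prob glue s K L X x0 hK hL hP hx0L hx0
        apply ih (X \ (pts s L).erase x0).card _ _ _ _ _ _ rfl
        · rw [← hn]
          apply card_lt_card
          rw [Finset.ssubset_iff_subset_ne]
          refine ⟨sdiff_subset, fun h => ?_⟩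
          obtain ⟨b, hb, hc3⟩ := pasch_nonempty hP
          have h1 : 1 < (s b).card := by omega
          obtain ⟨u, hu, hne⟩ := Finset.exists_mem_ne h1 x0
          have huL : u ∈ pts s L := sub_pts hb hu
          have : u ∈ X \ (pts s L).erase x0 := by
            rw [h]
            exact hLX huL
          exact (mem_sdiff.mp this).2 (mem_erase.mpr ⟨hne, huL⟩)
        · intro b hb
          rw [mem_sdiff] at hb
          refine ⟨(hK b hb.1).1, (hK b hb.1).2.1, ?_⟩
          intro y hy
          rw [mem_sdiff]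
          refine ⟨(hK b hb.1).2.2 hy, fun h => ?_⟩
          have := hx0 b hb.1 hb.2 (mem_inter.mpr ⟨hy, mem_of_mem_erase h⟩)
          rw [mem_singleton] at this
          exact ne_of_mem_erase h this
        · intro x hx
          rw [mem_sdiff] at hx
          by_cases hxx : x = x0
          · subst hxx
            rw [hd2]
            norm_num
          · have hxL : x ∉ pts s L := fun h => hx.2 (mem_erase.mpr ⟨hxx, h⟩)
            have h1 := deg_split (s := s) hL x
            have h2 : deg s L x = 0 := deg_eq_zero (fun b hb h => hxL (sub_pts hb h))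
            have := hX x hx.1
            omega

end Pool.Agent.Helper29_CF.H14
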